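import Pool.Agent.Q127.DJ.Stm

set_option autoImplicit false

namespace Pool.Agent.Q233.DJ

open Pool.Agent.Q127.DJ Filter Topology
open scoped InnerProductSpace lp

abbrev H := lp (fun _ : ℕ => ℝ) 2

noncomputable def mk (α : ℕ → ℝ) (h : Summable fun k => α k ^ 2) : H :=
  ⟨α, show Memℓp α 2 from (memℓp_gen_iff (by norm_num)).2 (by simpa using h)⟩

theorem mk_apply (α : ℕ → ℝ) (h : Summable fun k => α k ^ 2) (n : ℕ) : mk α h n = α n := rfl

theorem summ (x : H) : Summable fun k => x k ^ 2 := by
  have := (memℓp_gen_iff (by norm_num)).1 x.2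
  simpa using this

theorem inn (x y : H) : HasSum (fun k => x k * y k) (⟪x, y⟫_ℝ) := by
  have := lp.hasSum_inner (𝕜 := ℝ) x y
  simpa [mul_comm] using this

def sf (x : ℕ → ℝ) : ℕ → ℝ
  | 0 => 0
  | n + 1 => x n

theorem sf_summ (x : H) : Summable fun k => sf x k ^ 2 :=
  (summable_nat_add_iff 1).1 (by simpa [sf] using summ x)

noncomputable def Sh : H →ₗᵢ[ℝ] H where
  toFun x := mk (sf x) (sf_summ x)
  map_add' x y := by
    ext n
    cases n with
    | zero => change (0 : ℝ) = 0 + 0; simp
    | succ n => rfl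
  map_smul' c x := by
    ext n
    cases n with
    | zero => change (0 : ℝ) = c * 0; simp
    | succ n => rfl
  norm_map' x := by
    change ‖mk (sf x) (sf_summ x)‖ = ‖x‖
    have h1 := inn (mk (sf x) (sf_summ x)) (mk (sf x) (sf_summ x))
    have h2 := (hasSum_nat_add_iff' 1).2 h1
    have h3 := HasSum.unique (show HasSum (fun n => x n * x n) _ from h2) (inn x x)
    simp only [Finset.range_one, Finset.sum_singleton, mk_apply, sf, mul_zero, sub_zero,
      real_inner_self_eq_norm_sq] at h3
    exact (sq_eq_sq₀ (norm_nonneg _) (norm_nonneg _)).1 h3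

theorem Sh_zero (x : H) : Sh x 0 = 0 := rfl
theorem Sh_succ (x : H) (n : ℕ) : Sh x (n + 1) = x n := rfl

noncomputable def T : ℕ → H →ₗᵢ[ℝ] H
  | 0 => LinearIsometry.id
  | n + 1 => Sh.comp (T n)

theorem T_zero (x : H) : T 0 x = x := rfl
theorem T_succ (n : ℕ) (x : H) : T (n + 1) x = Sh (T n x) := rfl

theorem T_add (i j : ℕ) (x : H) : T (i + j) x = T i (T j x) := by
  induction i with
  | zero => rw [Nat.zero_add]; rfl
  | succ i ih => rw [Nat.succ_add, T_succ, T_succ, ih]

theorem T_lo (j n : ℕ) (x : H) (h : n < j) : T j x n = 0 := by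
  induction j generalizing n with
  | zero => omega
  | succ j ih =>
    rw [T_succ]
    cases n with
    | zero => rfl
    | succ n => rw [Sh_succ]; exact ih n (by omega)

theorem T_hi (j n : ℕ) (x : H) : T j x (n + j) = x n := by
  induction j with
  | zero => rfl
  | succ j ih => rw [T_succ, ← Nat.add_assoc, Sh_succ]; exact ih

theorem cor (x y : H) (d : ℕ) : ⟪x, T d y⟫_ℝ = ∑' n, x (n + d) * y n := by
  have h1 := inn x (T d y)
  have h2 := (hasSum_nat_add_iff' d).2 h1
  have h3 : ∑ i ∈ Finset.range d, x i * T d y i = 0 := Finset.sum_eq_zero fun i hi => by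
    rw [T_lo d i y (Finset.mem_range.1 hi), mul_zero]
  rw [h3, sub_zero] at h2
  simp only [T_hi] at h2
  exact h2.tsum_eq.symm

theorem main (a b : H) (h1 : ∀ j, ∑' k, a k * b (k + j) = 0) (h2 : ∀ j, ∑' k, a (k + j) * b k = 0)
    (hb : b 0 ≠ 0) : a 0 = 0 := by
  classical
  have c1 : ∀ i j, ⟪T i a, T j b⟫_ℝ = 0 := by
    intro i j
    rcases le_total i j with h | h
    · obtain ⟨d, rfl⟩ := Nat.exists_eq_add_of_le h
      rw [T_add, LinearIsometry.inner_map_map, cor]
      exact h2 d
    · obtain ⟨d, rfl⟩ := Nat.exists_eq_add_of_le h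
      rw [T_add, LinearIsometry.inner_map_map, real_inner_comm, cor]
      rw [← h1 d]
      exact tsum_congr fun n => mul_comm _ _
  let G : Submodule ℝ H := (Submodule.span ℝ (Set.range fun j => T (j + 1) b)).topologicalClosure
  have Gc : IsClosed (G : Set H) := Submodule.isClosed_topologicalClosure _
  have : CompleteSpace G := Gc.completeSpace_coe
  have memG : ∀ j, T (j + 1) b ∈ G := fun j =>
    Submodule.le_topologicalClosure _ (Submodule.subset_span ⟨j, rfl⟩)
  let w : H := b - G.starProjection b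
  have wG : w ∈ Gᗮ := Submodule.sub_starProjection_mem_orthogonal b
  have pG : G.starProjection b ∈ G := Submodule.starProjection_apply_mem _ _
  have leG : ∀ K : Submodule ℝ H, IsClosed (K : Set H) → (∀ l, T (l + 1) b ∈ K) → G ≤ K := by
    intro K hK h
    refine Submodule.topologicalClosure_minimal _ ?_ hK
    rw [Submodule.span_le]
    rintro _ ⟨l, rfl⟩
    exact h l
  have wne : w ≠ 0 := by
    intro h0
    have hbG : b ∈ G := by
      have : b = G.starProjection b := sub_eq_zero.1 h0
      rw [this]; exact pG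
    have h3 : G ≤ (Submodule.span ℝ {(lp.single 2 0 (1 : ℝ) : H)})ᗮ := by
      refine leG _ (Submodule.isClosed_orthogonal _) fun l => ?_
      rw [Submodule.mem_orthogonal_singleton_iff_inner_right, lp.inner_single_left]
      rw [T_lo (l + 1) 0 b (by omega)]
      simp
    have h4 := h3 hbG
    rw [Submodule.mem_orthogonal_singleton_iff_inner_right, lp.inner_single_left] at h4
    apply hb
    simpa using h4
  have mem : ∀ (K : Submodule ℝ H) (j : ℕ), IsClosed (K : Set H) → (∀ l, T (j + l) b ∈ K) →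
      T j w ∈ K := by
    intro K j hK h
    have h3 : G ≤ K.comap (T j).toLinearMap := by
      refine leG _ (hK.preimage (T j).continuous) fun l => ?_
      change T j (T (l + 1) b) ∈ K
      rw [← T_add]
      exact h _
    have h4 : T j (G.starProjection b) ∈ K := h3 pG
    change T j (b - G.starProjection b) ∈ K
    rw [map_sub]
    exact K.sub_mem (h 0) h4
  have c2 : ∀ i j, ⟪T i a, T j w⟫_ℝ = 0 := by
    intro i j
    have := mem (Submodule.span ℝ {T i a})ᗮ j (Submodule.isClosed_orthogonal _) fun l => by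
      rw [Submodule.mem_orthogonal_singleton_iff_inner_right]
      exact c1 i _
    rwa [Submodule.mem_orthogonal_singleton_iff_inner_right] at this
  have c3 : ∀ j, ⟪w, T (j + 1) w⟫_ℝ = 0 := by
    intro j
    have h3 : T (j + 1) w ∈ G := mem G (j + 1) Gc fun l => by
      have := memG (j + l)
      rwa [show j + 1 + l = j + l + 1 by omega]
    rw [real_inner_comm]
    exact (Submodule.mem_orthogonal _ _).1 wG _ h3
  have c4 : ∀ i j, i ≠ j → ⟪T i w, T j w⟫_ℝ = 0 := by
    intro i j hij
    rcases lt_or_gt_of_ne hij with h | h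
    · obtain ⟨d, rfl⟩ := Nat.exists_eq_add_of_lt h
      rw [show i + d + 1 = i + (d + 1) by omega, T_add, LinearIsometry.inner_map_map]
      exact c3 d
    · obtain ⟨d, rfl⟩ := Nat.exists_eq_add_of_lt h
      rw [show j + d + 1 = j + (d + 1) by omega, T_add, LinearIsometry.inner_map_map,
        real_inner_comm]
      exact c3 d
  set c : ℝ := ‖w‖ ^ 2 with hc
  have cpos : 0 < c := by rw [hc]; exact pow_pos (norm_pos_iff.2 wne) 2
  let e : ℕ → H := fun n => lp.single 2 n (1 : ℝ)
  have ein : ∀ n (x : H), ⟪e n, x⟫_ℝ = x n := fun n x => by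
    rw [lp.inner_single_left]; simp
  let γ : ℕ → ℕ → ℝ := fun n j => w (n - j) / c
  let y : ℕ → H := fun n => ∑ j ∈ Finset.range (n + 1), γ n j • T j w
  have q : ∀ n, ∑ j ∈ Finset.range (n + 1), w (n - j) ^ 2 = ∑ k ∈ Finset.range (n + 1), w k ^ 2 := by
    intro n
    have := Finset.sum_range_reflect (fun k => w k ^ 2) (n + 1)
    simpa using this
  have ey : ∀ n, ⟪e n, y n⟫_ℝ = (∑ k ∈ Finset.range (n + 1), w k ^ 2) / c := by
    intro n
    simp only [y, inner_sum, inner_smul_right]
    simp only [ein, γ]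
    rw [← q n, Finset.sum_div]
    refine Finset.sum_congr rfl fun j hj => ?_
    have hj' : j ≤ n := Nat.lt_succ_iff.1 (Finset.mem_range.1 hj)
    have := T_hi j (n - j) w
    rw [Nat.sub_add_cancel hj'] at this
    rw [this]; ring
  have yy : ∀ n, ⟪y n, y n⟫_ℝ = (∑ k ∈ Finset.range (n + 1), w k ^ 2) / c := by
    intro n
    simp only [y, inner_sum, sum_inner, inner_smul_right, inner_smul_left, γ]
    rw [← q n, Finset.sum_div]
    refine Finset.sum_congr rfl fun j hj => ?_
    rw [Finset.sum_eq_single j]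
    · rw [LinearIsometry.inner_map_map, real_inner_self_eq_norm_sq, ← hc]
      simp only [conj_trivial]
      field_simp
    · intro i _ hij
      rw [c4 i j hij]; ring
    · intro h; exact absurd hj h
  have nv : ∀ n, ‖e n - y n‖ ^ 2 = 1 - (∑ k ∈ Finset.range (n + 1), w k ^ 2) / c := by
    intro n
    rw [← real_inner_self_eq_norm_sq, inner_sub_left, inner_sub_right, inner_sub_right,
      real_inner_comm (e n) (y n), ey, yy, ein]
    have : (e n) n = 1 := by simp [e]
    rw [this]; ring
  have av : ∀ n, ⟪T n a, e n - y n⟫_ℝ = a 0 := by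
    intro n
    rw [inner_sub_right, real_inner_comm, ein]
    have h3 := T_hi n 0 a
    rw [Nat.zero_add] at h3
    rw [h3]
    have h4 : ⟪T n a, y n⟫_ℝ = 0 := by
      simp only [y, inner_sum, inner_smul_right, c2, mul_zero, Finset.sum_const_zero]
    rw [h4, sub_zero]
  have bound : ∀ n, a 0 ^ 2 ≤ ‖a‖ ^ 2 * (1 - (∑ k ∈ Finset.range (n + 1), w k ^ 2) / c) := by
    intro n
    rw [← nv n, ← av n, ← mul_pow]
    have h3 := abs_real_inner_le_norm (T n a) (e n - y n)
    rw [LinearIsometry.norm_map] at h3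
    rw [← sq_abs]
    exact pow_le_pow_left₀ (abs_nonneg _) h3 2
  have lim : Tendsto (fun n => ‖a‖ ^ 2 * (1 - (∑ k ∈ Finset.range (n + 1), w k ^ 2) / c)) atTop
      (𝓝 0) := by
    have h3 : HasSum (fun k => w k ^ 2) c := by
      have := inn w w
      rw [real_inner_self_eq_norm_sq, ← hc] at this
      simpa [sq] using this
    have h4 := (h3.tendsto_sum_nat.comp (tendsto_add_atTop_nat 1)).div_const c
    rw [div_self cpos.ne'] at h4
    have h5 := (h4.const_sub 1).const_mul (‖a‖ ^ 2)
    simpa using h5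
  have h0 : a 0 ^ 2 ≤ 0 := ge_of_tendsto' lim bound
  exact pow_eq_zero_iff (two_ne_zero) |>.1 (le_antisymm h0 (sq_nonneg _))

theorem t_HIL : S_hil := by
  intro α β hα hβ h0 h0'
  by_contra hcon
  push Not at hcon
  exact h0 (main (mk α hα) (mk β hβ) (fun j => (hcon j).1) (fun j => (hcon j).2) h0')

end Pool.Agent.Q233.DJ
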